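import Pool.Agent.H90.STE.Stmts

/-!
# The total doubling of a family with a random time
-/

set_option autoImplicit false

namespace Pool.STE

open Finset Real
open Pool.Agent.H49.Ent Pool.Agent.H32.Dense Pool.STK Pool.KA

theorem ts (hST : STStmt) (hDT : DTStmt) : TSStmt := by
  intro m J F k N hk
  have h1 : ∑ r ∈ Finset.range N, hT F k r ≤
      ∑ r ∈ Finset.range N, (tT F k r + iT F k r + 4 * cc m) :=
    Finset.sum_le_sum fun r _ => hDT m J F k r hk
  have h2 := hST m J F k N hk
  have h3 : ∑ r ∈ Finset.range N, (tT F k r + iT F k r + 4 * cc m) =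
      ∑ r ∈ Finset.range N, tT F k r + qT F k N + N * cc m := by
    have h4 : (N : ℝ) * cc m = ∑ r ∈ Finset.range N, cc m := by
      rw [Finset.sum_const, Finset.card_range, nsmul_eq_mul]
    unfold qT
    rw [h4, ← Finset.sum_add_distrib, ← Finset.sum_add_distrib]
    exact Finset.sum_congr rfl fun r _ => by ring
  rw [h3] at h1
  linarith

end Pool.STE
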